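import Pool.Agent.Helper57.MT.Goals

/-!
# Packet ZM: the mean of `Fs`
-/

set_option autoImplicit false

open Finset Filter Topology

open scoped Classical

namespace Pool.Agent.Helper44.MT

open Pool.Agent.Helper57.MT

/-- Chinese remainder theorem for products of periodic functions, two coprime moduli. -/
lemma crt2 (m n : ℕ) (hm : 0 < m) (hn : 0 < n) (h : Nat.Coprime m n) (G H : ℕ → ℝ) :
    ∑ a ∈ range (m * n), G (a % m) * H (a % n) = (∑ a ∈ range m, G a) * ∑ b ∈ range n, H b := by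
  rw [Finset.sum_mul_sum, ← Finset.sum_product']
  have hmaps : Set.MapsTo (fun a : ℕ => (a % m, a % n)) (range (m * n) : Finset ℕ)
      ((range m ×ˢ range n : Finset (ℕ × ℕ)) : Set (ℕ × ℕ)) := by
    intro a _
    simp only [coe_product, coe_range, Set.mem_prod, Set.mem_Iio]
    exact ⟨Nat.mod_lt _ hm, Nat.mod_lt _ hn⟩
  have hinj : Set.InjOn (fun a : ℕ => (a % m, a % n)) (range (m * n) : Finset ℕ) := by
    intro a ha b hb hab
    simp only [coe_range, Set.mem_Iio] at ha hb
    simp only [Prod.mk.injEq] at hab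
    have h1 : a ≡ b [MOD m * n] :=
      (Nat.modEq_and_modEq_iff_modEq_mul h).mp ⟨hab.1, hab.2⟩
    exact Nat.ModEq.eq_of_lt_of_lt h1 ha hb
  refine Finset.sum_nbij (fun a : ℕ => (a % m, a % n)) (fun a ha => hmaps ha) hinj ?_
    (fun a _ => rfl)
  exact Finset.surjOn_of_injOn_of_card_le _ hmaps hinj (by simp [card_product])

/-- Chinese remainder theorem for products of periodic functions. -/
lemma crt (f : ℕ → ℕ → ℝ) (S : Finset ℕ) (hS : ∀ l ∈ S, l.Prime)
    (hf : ∀ l ∈ S, ∀ a, f l (a % l) = f l a) :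
    ∑ a ∈ range (∏ l ∈ S, l), ∏ l ∈ S, f l a = ∏ l ∈ S, ∑ a ∈ range l, f l a := by
  induction S using Finset.induction_on with
  | empty => simp
  | @insert q S hq ih =>
    have hS' : ∀ l ∈ S, l.Prime := fun l hl => hS l (mem_insert_of_mem hl)
    have hf' : ∀ l ∈ S, ∀ a, f l (a % l) = f l a := fun l hl => hf l (mem_insert_of_mem hl)
    have hqp : q.Prime := hS q (mem_insert_self _ _)
    have hN : 0 < ∏ l ∈ S, l := prod_pos (fun l hl => (hS' l hl).pos)
    have hco : Nat.Coprime q (∏ l ∈ S, l) := by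
      refine Nat.Coprime.prod_right (fun l hl => ?_)
      rw [Nat.coprime_primes hqp (hS' l hl)]
      rintro rfl
      exact hq hl
    rw [prod_insert hq, prod_insert hq, ← ih hS' hf',
      ← crt2 q (∏ l ∈ S, l) hqp.pos hN hco (fun a => f q a) (fun b => ∏ l ∈ S, f l b)]
    refine sum_congr rfl (fun a _ => ?_)
    rw [prod_insert hq, hf q (mem_insert_self _ _) a]
    congr 1
    refine prod_congr rfl (fun l hl => ?_)
    rw [← hf' l hl (a % ∏ l ∈ S, l), Nat.mod_mod_of_dvd _ (dvd_prod_of_mem _ hl), hf' l hl a]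

theorem zm (hSV : StmtSV1) : StmtZM := by
  intro H K1 p hH hp hadm
  set S : Finset ℕ := (Icc 1 K1).filter Nat.Prime with hSdef
  have hSp : ∀ l ∈ S, l.Prime := fun l hl => (mem_filter.mp hl).2
  have hprim : primorial K1 = ∏ l ∈ S, l := by
    unfold primorial
    refine prod_congr ?_ (fun _ _ => rfl)
    ext l
    simp only [hSdef, mem_filter, mem_range, mem_Icc]
    constructor
    · rintro ⟨h1, h2⟩
      exact ⟨⟨h2.one_lt.le, by omega⟩, h2⟩
    · rintro ⟨⟨_, h1⟩, h2⟩
      exact ⟨by omega, h2⟩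
  have hFs : ∀ a, Fs H K1 p a = ∏ l ∈ S, (if l = p then (1 : ℝ) else sv H l a) := by
    intro a
    unfold Fs
    rw [← hSdef]
    by_cases hpS : p ∈ S
    · rw [← mul_prod_erase S _ hpS, if_pos rfl, one_mul]
      refine prod_congr rfl (fun l hl => ?_)
      rw [if_neg (ne_of_mem_erase hl)]
    · rw [erase_eq_of_notMem hpS]
      refine prod_congr rfl (fun l hl => ?_)
      have hlp : l ≠ p := fun h => hpS (by rw [← h]; exact hl)
      rw [if_neg hlp]
  have hval : ∑ a ∈ range (primorial K1), Fs H K1 p a =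
      ∏ l ∈ S, (if l = p then (l : ℝ) else (l : ℝ) - 1) := by
    rw [hprim]
    simp only [hFs]
    rw [crt (fun l a => if l = p then (1 : ℝ) else sv H l a) S hSp ?_]
    · refine prod_congr rfl (fun l hl => ?_)
      by_cases hlp : l = p
      · simp [hlp]
      · simp only [if_neg hlp]
        exact (hSV H l (hSp l hl) hH (hadm l (hSp l hl))).2.2.1
    · intro l hl a
      by_cases hlp : l = p
      · simp [hlp]
      · simp only [if_neg hlp]
        exact (hSV H l (hSp l hl) hH (hadm l (hSp l hl))).2.1 a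
  have hl1 : ∀ l ∈ S, (l : ℝ) * (1 - 1 / (l : ℝ)) = (l : ℝ) - 1 := by
    intro l hl
    have : (l : ℝ) ≠ 0 := by exact_mod_cast (hSp l hl).ne_zero
    field_simp
  have hnn : ∀ l ∈ S, (0 : ℝ) ≤ (l : ℝ) - 1 := by
    intro l hl
    have : (1 : ℝ) ≤ l := by exact_mod_cast (hSp l hl).one_lt.le
    linarith
  have hR : (primorial K1 : ℝ) * ∏ l ∈ S, (1 - 1 / (l : ℝ)) = ∏ l ∈ S, ((l : ℝ) - 1) := by
    rw [hprim]
    push_cast
    rw [← prod_mul_distrib]
    exact prod_congr rfl hl1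
  rw [hval, mul_assoc, hR]
  by_cases hpS : p ∈ S
  · rw [← mul_prod_erase S _ hpS, ← mul_prod_erase S (fun l => (l : ℝ) - 1) hpS, if_pos rfl]
    have e1 : ∏ l ∈ S.erase p, (if l = p then (l : ℝ) else (l : ℝ) - 1) =
        ∏ l ∈ S.erase p, ((l : ℝ) - 1) :=
      prod_congr rfl (fun l hl => if_neg (ne_of_mem_erase hl))
    rw [e1]
    have h0 : (0 : ℝ) ≤ ∏ l ∈ S.erase p, ((l : ℝ) - 1) :=
      prod_nonneg (fun l hl => hnn l (mem_of_mem_erase hl))
    have h2 : (2 : ℝ) ≤ p := by exact_mod_cast hp.two_le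
    nlinarith
  · have e1 : ∏ l ∈ S, (if l = p then (l : ℝ) else (l : ℝ) - 1) = ∏ l ∈ S, ((l : ℝ) - 1) :=
      prod_congr rfl (fun l hl => if_neg (fun h : l = p => hpS (by rw [← h]; exact hl)))
    rw [e1]
    have h0 : (0 : ℝ) ≤ ∏ l ∈ S, ((l : ℝ) - 1) := prod_nonneg hnn
    linarith

end Pool.Agent.Helper44.MT
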